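import Pool.Agent.Helper20_TWS.Stmts

/-! W_surface (MP_680ca2_al, part (a)): linear algebra of handles; complexes as lists. -/

set_option autoImplicit false

namespace Pool.Agent.TWS.H15

open Pool.Agent.TOR Pool.Agent.TOR.H58

section lin

variable {V E : Type} [AddCommGroup E] [Module ℚ E]

theorem ind_iff {N : Submodule ℚ E} {f : V → E} {A : Set V} :
    LinearIndepOn ℚ (fun v => N.mkQ (f v)) A ↔
      ∀ l ∈ Finsupp.supported ℚ ℚ A, Finsupp.linearCombination ℚ f l ∈ N → l = 0 := by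
  have key : ∀ l : V →₀ ℚ, Finsupp.linearCombination ℚ (fun v => N.mkQ (f v)) l =
      N.mkQ (Finsupp.linearCombination ℚ f l) := by
    intro l
    rw [Finsupp.linearCombination_apply, Finsupp.linearCombination_apply, Finsupp.sum,
      Finsupp.sum, map_sum]
    exact Finset.sum_congr rfl fun v _ => by rw [map_smul]
  rw [linearIndepOn_iff]
  refine forall₂_congr fun l _ => ?_
  rw [key, Submodule.mkQ_apply, Submodule.Quotient.mk_eq_zero]

/-- independence modulo a larger submodule implies independence modulo a smaller one -/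
theorem ind_mono {N N' : Submodule ℚ E} (h : N ≤ N') {f : V → E} {A : Set V}
    (hA : LinearIndepOn ℚ (fun v => N'.mkQ (f v)) A) :
    LinearIndepOn ℚ (fun v => N.mkQ (f v)) A := by
  rw [ind_iff] at hA ⊢
  exact fun l hl h1 => hA l hl (h h1)

variable {om : E →ₗ[ℚ] E →ₗ[ℚ] ℚ}

theorem om_skew (halt : ∀ e, om e e = 0) (a b : E) : om a b = - om b a := by
  have h := halt (a + b)
  simp only [map_add, LinearMap.add_apply, halt a, halt b] at h
  linarith

/-- add a handle orthogonal to everything to the submodule -/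
theorem ind_hnd (halt : ∀ e, om e e = 0) {N : Submodule ℚ E} {f : V → E} {A : Set V} {a b : E}
    (hab : om a b = 1) (hN : ∀ n ∈ N, om n a = 0 ∧ om n b = 0)
    (hA : ∀ v ∈ A, om (f v) a = 0 ∧ om (f v) b = 0)
    (hI : LinearIndepOn ℚ (fun v => N.mkQ (f v)) A) :
    LinearIndepOn ℚ (fun v => (N ⊔ Submodule.span ℚ {a, b}).mkQ (f v)) A := by
  rw [ind_iff] at hI ⊢
  intro l hl h1
  have hx : ∀ c : E, (∀ v ∈ A, om (f v) c = 0) → om (Finsupp.linearCombination ℚ f l) c = 0 := by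
    intro c hc
    rw [Finsupp.linearCombination_apply, Finsupp.sum, map_sum, LinearMap.sum_apply]
    refine Finset.sum_eq_zero fun v hv => ?_
    have hvA : v ∈ A := (Finsupp.mem_supported ℚ l).mp hl hv
    rw [map_smul, LinearMap.smul_apply, hc v hvA, smul_zero]
  obtain ⟨n, hn, w, hw, hnw⟩ := Submodule.mem_sup.mp h1
  obtain ⟨r, s, rfl⟩ := Submodule.mem_span_pair.mp hw
  have hba : om b a = -1 := by rw [om_skew halt, hab]
  have h2 : om (Finsupp.linearCombination ℚ f l) a = 0 := hx a fun v hv => (hA v hv).1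
  have h3 : om (Finsupp.linearCombination ℚ f l) b = 0 := hx b fun v hv => (hA v hv).2
  rw [← hnw] at h2 h3
  simp only [map_add, LinearMap.add_apply, map_smul, LinearMap.smul_apply, (hN n hn).1,
    (hN n hn).2, halt, hab, hba, smul_eq_mul] at h2 h3
  have hr : r = 0 := by linarith
  have hs : s = 0 := by linarith
  refine hI l hl ?_
  rw [← hnw, hr, hs]
  simpa using hn

/-- a handle orthogonal to a submodule is independent modulo this submodule -/
theorem ind_pair (halt : ∀ e, om e e = 0) {N : Submodule ℚ E} {f : V → E} {x y : V}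
    (hab : om (f x) (f y) = 1) (hN : ∀ n ∈ N, om n (f x) = 0 ∧ om n (f y) = 0) :
    LinearIndepOn ℚ (fun v => N.mkQ (f v)) {x, y} := by
  have hxy : x ≠ y := by
    rintro rfl
    rw [halt] at hab
    exact zero_ne_one hab
  have hba : om (f y) (f x) = -1 := by rw [om_skew halt, hab]
  refine (LinearIndepOn.pair_iff _ hxy).mpr fun c d h => ?_
  rw [← map_smul, ← map_smul, ← map_add, Submodule.mkQ_apply, Submodule.Quotient.mk_eq_zero] at h
  obtain ⟨h1, h2⟩ := hN _ h
  simp only [map_add, LinearMap.add_apply, map_smul, LinearMap.smul_apply, halt, hab, hba,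
    smul_eq_mul] at h1 h2
  constructor <;> linarith

end lin

/-! ### complexes as lists -/

theorem ex_congr {V M : Type} [AddCommGroup M] {K K' : Set V → Prop}
    (h : ∀ l : List V, K {a | a ∈ l} ↔ K' {a | a ∈ l}) (p : ℕ) : Ex M K p ↔ Ex M K' p := by
  have e : (KL K : List V → Prop) = KL K' := by
    funext l
    exact propext (h l)
  unfold Ex Zc Bc
  rw [e]

theorem zc_mono {V M : Type} [AddCommGroup M] {K K' : Set V → Prop}
    (h : ∀ l : List V, K {a | a ∈ l} → K' {a | a ∈ l}) (p : ℕ) : Zc M K p ≤ Zc M K' p := by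
  intro c hc
  obtain ⟨h1, h2⟩ := AddSubgroup.mem_inf.mp hc
  refine AddSubgroup.mem_inf.mpr ⟨?_, h2⟩
  exact Sup_mono (fun l hl => ⟨h l hl.1, hl.2⟩) h1

theorem bc_mono {V M : Type} [AddCommGroup M] {K K' : Set V → Prop}
    (h : ∀ l : List V, K {a | a ∈ l} → K' {a | a ∈ l}) (p : ℕ) : Bc M K p ≤ Bc M K' p := by
  refine AddSubgroup.map_mono ?_
  intro c hc
  exact Sup_mono (fun l hl => ⟨h l hl.1, hl.2⟩) hc

/-! ### sets of arcs of handles -/

section sets

variable {V : Type}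

theorem uz_empty : uz (∅ : Set (ℕ × (V × V))) = ∅ := by
  ext p; simp [uz]

theorem uh_empty : uh (∅ : Set (V × V)) = ∅ := by
  ext p; simp [uh]

theorem gp_empty (i : ℕ) : gp i (∅ : Set V) = ∅ := by
  simp [gp]

theorem uh_single (h : V × V) : uh {h} = {h.1, h.2} := by
  ext p; simp [uh]

theorem mem_gp {i : ℕ} {s : Set V} {p : ℕ × V} : p ∈ gp i s ↔ p.1 = i ∧ p.2 ∈ s := by
  constructor
  · rintro ⟨v, hv, rfl⟩
    exact ⟨rfl, hv⟩
  · rintro ⟨h1, h2⟩
    exact ⟨p.2, h2, by rw [← h1]⟩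

theorem uz_insert (z : ℕ × (V × V)) (s : Set (ℕ × (V × V))) :
    uz (insert z s) = gp z.1 {z.2.1, z.2.2} ∪ uz s := by
  ext p
  simp only [Set.mem_union, mem_gp, uz, Set.mem_setOf_eq, Set.mem_insert_iff,
    Set.mem_singleton_iff]
  constructor
  · rintro ⟨w, rfl | hw, h⟩
    · exact Or.inl h
    · exact Or.inr ⟨w, hw, h⟩
  · rintro (h | ⟨w, hw, h⟩)
    · exact ⟨z, Or.inl rfl, h⟩
    · exact ⟨w, Or.inr hw, h⟩

theorem uh_insert (z : V × V) (s : Set (V × V)) : uh (insert z s) = {z.1, z.2} ∪ uh s := by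
  ext p
  simp only [Set.mem_union, uh, Set.mem_setOf_eq, Set.mem_insert_iff, Set.mem_singleton_iff]
  constructor
  · rintro ⟨w, rfl | hw, h⟩
    · exact Or.inl h
    · exact Or.inr ⟨w, hw, h⟩
  · rintro (h | ⟨w, hw, h⟩)
    · exact ⟨z, Or.inl rfl, h⟩
    · exact ⟨w, Or.inr hw, h⟩

theorem uz_mono {s t : Set (ℕ × (V × V))} (h : s ⊆ t) : uz s ⊆ uz t := by
  rintro p ⟨z, hz, hp⟩
  exact ⟨z, h hz, hp⟩

theorem uh_mono {s t : Set (V × V)} (h : s ⊆ t) : uh s ⊆ uh t := by
  rintro p ⟨z, hz, hp⟩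
  exact ⟨z, h hz, hp⟩

theorem gp_mono {i : ℕ} {s t : Set V} (h : s ⊆ t) : gp i s ⊆ gp i t := Set.image_mono h

theorem set_cons {W : Type} (a : W) (l : List W) :
    {x | x ∈ a :: l} = insert a {x | x ∈ l} := by
  ext x; simp

theorem set_nil {W : Type} : {x : W | x ∈ ([] : List W)} = ∅ := by
  ext x; simp

theorem pair_fin (i : ℕ) (a b : V) : (gp i {a, b}).Finite := (Set.toFinite _).image _

theorem pair_card (i : ℕ) (a b : V) : (gp i {a, b}).ncard ≤ 2 := by
  refine le_trans (Set.ncard_image_le (Set.toFinite _)) ?_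
  exact Set.ncard_insert_le _ _ |>.trans (by rw [Set.ncard_singleton])

theorem uh_fin (l : List (V × V)) : (uh {h | h ∈ l}).Finite ∧
    (uh {h | h ∈ l}).ncard ≤ 2 * l.length := by
  induction l with
  | nil => rw [set_nil, uh_empty]; simp
  | cons a l ih =>
    rw [set_cons, uh_insert]
    refine ⟨(Set.toFinite _).union ih.1, ?_⟩
    refine (Set.ncard_union_le _ _).trans ?_
    have h1 : ({a.1, a.2} : Set V).ncard ≤ 2 :=
      Set.ncard_insert_le _ _ |>.trans (by rw [Set.ncard_singleton])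
    have h2 := ih.2
    rw [List.length_cons]
    omega

theorem gpuh_fin (i : ℕ) (l : List (V × V)) : (gp i (uh {h | h ∈ l})).Finite ∧
    (gp i (uh {h | h ∈ l})).ncard ≤ 2 * l.length :=
  ⟨(uh_fin l).1.image _, (Set.ncard_image_le (uh_fin l).1).trans (uh_fin l).2⟩

theorem uz_fin (l : List (ℕ × (V × V))) : (uz {h | h ∈ l}).Finite ∧
    (uz {h | h ∈ l}).ncard ≤ 2 * l.length := by
  induction l with
  | nil => rw [set_nil, uz_empty]; simp
  | cons a l ih =>
    rw [set_cons, uz_insert]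
    refine ⟨(pair_fin _ _ _).union ih.1, ?_⟩
    refine (Set.ncard_union_le _ _).trans ?_
    have h1 := pair_card a.1 a.2.1 a.2.2
    have h2 := ih.2
    rw [List.length_cons]
    omega

end sets

/-! ### arc systems -/

section sys

variable {V E : Type} [AddCommGroup E] [Module ℚ E] {g : ℕ} (S : ASys V E g)

theorem sys_mono {κ κ' : Set (ℕ × V)} (h : κ ⊆ κ') (hs : S.Sys κ') : S.Sys κ :=
  fun p hp q hq => hs p (h hp) q (h hq)

theorem spn_mono {τ τ' : Set (ℕ × V)} (h : τ ⊆ τ') : S.spn τ ≤ S.spn τ' :=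
  Submodule.span_mono (Set.image_mono h)

theorem spn_union (τ τ' : Set (ℕ × V)) : S.spn (τ ∪ τ') = S.spn τ ⊔ S.spn τ' := by
  unfold ASys.spn
  rw [Set.image_union, Submodule.span_union]

theorem spn_pair (i : ℕ) (a b : V) : S.spn (gp i {a, b}) =
    Submodule.span ℚ {S.cl a, S.cl b} := by
  unfold ASys.spn gp
  rw [Set.image_image, Set.image_pair]

/-- orthogonality to the span -/
theorem spn_orth {τ : Set (ℕ × V)} {c : E} (h : ∀ q ∈ τ, S.om (S.cl q.2) c = 0) :
    ∀ n ∈ S.spn τ, S.om n c = 0 := by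
  intro n hn
  refine Submodule.span_induction (p := fun n _ => S.om n c = 0) ?_ ?_ ?_ ?_ hn
  · rintro _ ⟨q, hq, rfl⟩
    exact h q hq
  · rw [map_zero, LinearMap.zero_apply]
  · intro x y _ _ hx hy
    rw [map_add, LinearMap.add_apply, hx, hy, add_zero]
  · intro r x _ hx
    rw [map_smul, LinearMap.smul_apply, hx, smul_zero]

/-- independence of `τ ∪ gp i A` -/
theorem indG_union {τ : Set (ℕ × V)} {i : ℕ} {A : Set V} (h1 : S.IndG τ)
    (h2 : S.Ind (S.spn τ) A) : S.IndG (τ ∪ gp i A) := by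
  unfold ASys.IndG at h1 ⊢
  refine LinearIndepOn.union_of_quotient h1 ?_
  exact LinearIndepOn.image_of_comp (fun v : V => (i, v))
    ((Submodule.span ℚ ((fun p : ℕ × V => S.cl p.2) '' τ)).mkQ ∘ fun p : ℕ × V => S.cl p.2) h2

/-- the span is orthogonal to the arcs at another gap -/
theorem spn_perp {τ : Set (ℕ × V)} {i : ℕ} {a : V} (hi : ∀ q ∈ τ, q.1 ≠ i)
    (hs : ∀ q ∈ τ, S.C q (i, a)) : ∀ n ∈ S.spn τ, S.om n (S.cl a) = 0 :=
  spn_orth S fun q hq => S.orth q.1 i q.2 a (hi q hq) (hs q hq)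

/-- a compatible handle at a free gap is independent modulo `τ` -/
theorem ind_handle {τ : Set (ℕ × V)} {i : ℕ} {h : V × V} (hh : S.IsH h)
    (hi : ∀ q ∈ τ, q.1 ≠ i) (hs : S.Sys (τ ∪ gp i {h.1, h.2})) :
    S.Ind (S.spn τ) {h.1, h.2} := by
  have h1 : ∀ q ∈ τ, S.C q (i, h.1) := fun q hq =>
    hs q (Or.inl hq) (i, h.1) (Or.inr (mem_gp.mpr ⟨rfl, Or.inl rfl⟩))
  have h2 : ∀ q ∈ τ, S.C q (i, h.2) := fun q hq =>
    hs q (Or.inl hq) (i, h.2) (Or.inr (mem_gp.mpr ⟨rfl, Or.inr rfl⟩))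
  exact ind_pair S.alt hh.2 fun n hn => ⟨spn_perp S hi h1 n hn, spn_perp S hi h2 n hn⟩

/-- conditions on a list of handles at distinct gaps different from the gaps of `τ` -/
def Hl (τ : Set (ℕ × V)) (l : List (ℕ × (V × V))) : Prop :=
  (∀ z ∈ l, S.IsH z.2 ∧ ∀ q ∈ τ, q.1 ≠ z.1) ∧ (∀ z ∈ l, ∀ z' ∈ l, z.1 = z'.1 → z = z') ∧
    S.Sys (τ ∪ uz {z | z ∈ l})

theorem hl_tail {τ : Set (ℕ × V)} {z : ℕ × (V × V)} {l : List (ℕ × (V × V))}
    (h : Hl S τ (z :: l)) : Hl S τ l := by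
  refine ⟨fun w hw => h.1 w (List.mem_cons_of_mem _ hw), fun w hw w' hw' =>
    h.2.1 w (List.mem_cons_of_mem _ hw) w' (List.mem_cons_of_mem _ hw'), ?_⟩
  refine sys_mono S (Set.union_subset_union_right _ (uz_mono ?_)) h.2.2
  intro w hw
  exact List.mem_cons_of_mem _ hw

theorem hl_gap {τ : Set (ℕ × V)} {z : ℕ × (V × V)} {l : List (ℕ × (V × V))}
    (h : Hl S τ (z :: l)) (hz : z ∉ l) : ∀ q ∈ τ ∪ uz {w | w ∈ l}, q.1 ≠ z.1 := by
  rintro q (hq | ⟨w, hw, hqw, _⟩)
  · exact (h.1 z List.mem_cons_self).2 q hq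
  · intro e
    have h1 := h.2.1 w (List.mem_cons_of_mem _ hw) z List.mem_cons_self (by rw [← hqw, e])
    exact hz (h1 ▸ hw)

theorem uz_cons (z : ℕ × (V × V)) (l : List (ℕ × (V × V))) (τ : Set (ℕ × V)) :
    τ ∪ uz {w | w ∈ z :: l} = (τ ∪ uz {w | w ∈ l}) ∪ gp z.1 {z.2.1, z.2.2} := by
  rw [set_cons, uz_insert, Set.union_assoc, Set.union_comm (uz _)]

theorem uz_cons_mem (z : ℕ × (V × V)) (l : List (ℕ × (V × V))) (h : z ∈ l) :
    {w | w ∈ z :: l} = {w | w ∈ l} := by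
  rw [set_cons]
  exact Set.insert_eq_of_mem h

/-- handles at distinct gaps are independent together with `τ` -/
theorem indG_hl {τ : Set (ℕ × V)} (hτ : S.IndG τ) (l : List (ℕ × (V × V))) (h : Hl S τ l) :
    S.IndG (τ ∪ uz {z | z ∈ l}) := by
  induction l with
  | nil => rw [set_nil, uz_empty, Set.union_empty]; exact hτ
  | cons z l ih =>
    by_cases hz : z ∈ l
    · rw [uz_cons_mem z l hz]
      exact ih (hl_tail S h)
    · have h3 := h.2.2
      rw [uz_cons] at h3 ⊢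
      exact indG_union S (ih (hl_tail S h))
        (ind_handle S (h.1 z List.mem_cons_self).1 (hl_gap S h hz) h3)

/-- arcs at the gap `i` independent modulo `τ` remain independent modulo `τ` and handles at other
gaps -/
theorem ind_hl {τ : Set (ℕ × V)} {i : ℕ} {A : Set V} (hA : S.Ind (S.spn τ) A)
    (l : List (ℕ × (V × V))) (h : Hl S τ l) (hi : ∀ z ∈ l, z.1 ≠ i)
    (hs : S.Sys ((τ ∪ uz {z | z ∈ l}) ∪ gp i A)) : S.Ind (S.spn (τ ∪ uz {z | z ∈ l})) A := by
  induction l with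
  | nil => rw [set_nil, uz_empty, Set.union_empty]; exact hA
  | cons z l ih =>
    by_cases hz : z ∈ l
    · rw [uz_cons_mem z l hz] at hs ⊢
      exact ih (hl_tail S h) (fun w hw => hi w (List.mem_cons_of_mem _ hw)) hs
    · have hg := hl_gap S h hz
      have hzi := hi z List.mem_cons_self
      rw [uz_cons] at hs ⊢
      have h1 := ih (hl_tail S h) (fun w hw => hi w (List.mem_cons_of_mem _ hw))
        (sys_mono S (Set.union_subset_union_left _ Set.subset_union_left) hs)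
      rw [spn_union, spn_pair]
      have h4 : ∀ q ∈ τ ∪ uz {w | w ∈ l}, ∀ a, (a = z.2.1 ∨ a = z.2.2) → S.C q (z.1, a) :=
        fun q hq a ha => hs q (Or.inl (Or.inl hq)) (z.1, a)
          (Or.inl (Or.inr (mem_gp.mpr ⟨rfl, ha⟩)))
      have h5 : ∀ v ∈ A, ∀ a, (a = z.2.1 ∨ a = z.2.2) → S.C (i, v) (z.1, a) :=
        fun v hv a ha => hs (i, v) (Or.inr (mem_gp.mpr ⟨rfl, hv⟩)) (z.1, a)
          (Or.inl (Or.inr (mem_gp.mpr ⟨rfl, ha⟩)))
      refine ind_hnd S.alt (h.1 z List.mem_cons_self).1.2 (fun n hn => ⟨?_, ?_⟩)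
        (fun v hv => ⟨?_, ?_⟩) h1
      · exact spn_perp S hg (fun q hq => h4 q hq _ (Or.inl rfl)) n hn
      · exact spn_perp S hg (fun q hq => h4 q hq _ (Or.inr rfl)) n hn
      · exact S.orth i z.1 v _ (Ne.symm hzi) (h5 v hv _ (Or.inl rfl))
      · exact S.orth i z.1 v _ (Ne.symm hzi) (h5 v hv _ (Or.inr rfl))

/-- the rainbow complex is closed under subsets -/
theorem hk_dn (f : E →ₗ[ℚ] ℚ) (J : Set ℕ) (τ : Set (ℕ × V)) : Dn (S.HK f J τ) := by
  intro s t hst ht
  refine ⟨fun z hz => ht.1 z (hst hz), fun z hz z' hz' => ht.2.1 z (hst hz) z' (hst hz'), ?_⟩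
  exact sys_mono S (Set.union_subset_union_right _ (uz_mono hst)) ht.2.2

end sys

end Pool.Agent.TWS.H15
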