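import Pool.Agent.Helper15_TWS.Lin

/-! SUR: cycles of the rainbow complex are sums of cycles compatible with one unrestricted handle
at the gap `i`. -/

set_option autoImplicit false

namespace Pool.Agent.TWS.H15

open Pool.Agent.TOR Pool.Agent.TOR.H58

section

variable {V E : Type} [AddCommGroup E] [Module ℚ E] {g : ℕ} (S : ASys V E g)

/-- a simplex of the rainbow complex is a list of handles at distinct gaps -/
theorem hk_hl {f : E →ₗ[ℚ] ℚ} {J : Set ℕ} {τ : Set (ℕ × V)} (hJ : ∀ q ∈ τ, q.1 ∉ J)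
    {l : List (ℕ × (V × V))} (h : S.HK f J τ {z | z ∈ l}) : Hl S τ l := by
  refine ⟨fun z hz => ⟨(h.1 z hz).2.1, fun q hq e => hJ q hq (e ▸ (h.1 z hz).1)⟩, h.2.1, h.2.2⟩

/-- the bicomplex -/
def DD (f : E →ₗ[ℚ] ℚ) (J : Set ℕ) (τ : Set (ℕ × V)) (i : ℕ) (s : Set (ℕ × (V × V)))
    (t : Set (V × V)) : Prop := S.HK f J τ s ∧ S.NN (τ ∪ uz s) i t

theorem dd_mono (f : E →ₗ[ℚ] ℚ) (J : Set ℕ) (τ : Set (ℕ × V)) (i : ℕ)
    (s s' : Set (ℕ × (V × V))) (t t' : Set (V × V)) (hs : s ⊆ s') (ht : t ⊆ t')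
    (h : DD S f J τ i s' t') : DD S f J τ i s t := by
  refine ⟨hk_dn S f J τ s s' hs h.1, fun w hw => h.2.1 w (ht hw), ?_, ?_⟩
  · exact sys_mono S (Set.union_subset_union (Set.union_subset_union_right _ (uz_mono hs))
      (gp_mono (uh_mono ht))) h.2.2.1
  · exact ind_mono (spn_mono S (Set.union_subset_union_right _ (uz_mono hs)))
      (LinearIndepOn.mono h.2.2.2 (uh_mono ht))

theorem nn_empty {τ : Set (ℕ × V)} (hs : S.Sys τ) (i : ℕ) : S.NN τ i ∅ := by
  refine ⟨fun w hw => absurd hw (Set.notMem_empty w), ?_, ?_⟩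
  · rw [uh_empty, gp_empty, Set.union_empty]; exact hs
  · rw [uh_empty]; exact linearIndepOn_empty _ _

/-- columns of the bicomplex -/
theorem dd_col (f : E →ₗ[ℚ] ℚ) (J : Set ℕ) (τ : Set (ℕ × V)) (i : ℕ) (hiJ : i ∉ J)
    (hJ : ∀ q ∈ τ, q.1 ∉ J) (t : List (V × V)) (ht : S.NN τ i {h | h ∈ t})
    (l : List (ℕ × (V × V))) :
    DD S f J τ i {z | z ∈ l} {h | h ∈ t} ↔
      S.HK f J (τ ∪ gp i (uh {h | h ∈ t})) {z | z ∈ l} := by
  have e : (τ ∪ uz {z | z ∈ l}) ∪ gp i (uh {h | h ∈ t}) =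
      (τ ∪ gp i (uh {h | h ∈ t})) ∪ uz {z | z ∈ l} := by
    rw [Set.union_assoc, Set.union_comm (uz _), Set.union_assoc]
  constructor
  · rintro ⟨h1, h2⟩
    refine ⟨h1.1, h1.2.1, ?_⟩
    rw [← e]
    exact h2.2.1
  · intro h
    have h1 : S.HK f J τ {z | z ∈ l} := by
      refine ⟨h.1, h.2.1, sys_mono S ?_ h.2.2⟩
      exact Set.union_subset_union_left _ Set.subset_union_left
    refine ⟨h1, ht.1, ?_, ?_⟩
    · rw [e]; exact h.2.2
    · refine ind_hl (i := i) S ht.2.2 l (hk_hl S hJ h1) (fun z hz hzi => hiJ ?_) ?_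
      · rw [← hzi]; exact (h.1 z hz).1
      · rw [e]; exact h.2.2

end

theorem sur (hB : BicS) (hN : NnaS) : SurS := by
  intro V E M _ _ _ g S f J τ i p hτf hτs hτi hiJ hτJ hg hcol
  have hJ : ∀ q ∈ τ, q.1 ∉ J := fun q hq => (hτJ q hq).2
  have h1 := hB (ℕ × (V × V)) (V × V) M (DD S f J τ i) p (dd_mono S f J τ i) ?_ ?_
  · refine le_trans (zc_mono (fun l hl => ⟨hl, nn_empty S hl.2.2 i⟩) p) (h1.trans ?_)
    refine iSup_le fun w => ?_
    have hw : S.NN τ i {w.1} := by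
      have h := w.2.2
      rwa [uz_empty, Set.union_empty] at h
    have hw2 : S.Sys (τ ∪ gp i {w.1.1, w.1.2}) := by
      have h := hw.2.1
      rwa [uh_single] at h
    refine le_trans ?_ (le_iSup (fun h : {h : V × V // S.IsH h ∧ S.Sys (τ ∪ gp i {h.1, h.2})} =>
      Zc M (S.HK f J (τ ∪ gp i {h.1.1, h.1.2})) p) ⟨w.1, hw.1 w.1 rfl, hw2⟩)
    refine zc_mono (fun l hl => ?_) p
    have hw3 : S.NN τ i {h | h ∈ [w.1]} := by
      rw [set_cons, set_nil, insert_empty_eq]; exact hw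
    have h2 := (dd_col S f J τ i hiJ hJ [w.1] hw3 l).mp (by
      rw [set_cons, set_nil, insert_empty_eq]; exact hl)
    rw [set_cons, set_nil, insert_empty_eq, uh_single] at h2
    exact h2
  · -- rows
    intro l hl hD
    have hh := hk_hl S hJ hD.1
    have h2 := hN V E M g S (τ ∪ uz {z | z ∈ l}) i (p - l.length)
      (hτf.union (uz_fin l).1) hD.1.2.2 (indG_hl S hτi l hh) ?_ ?_ (p - l.length) le_rfl
    · refine (ex_congr (fun t => ?_) _).mp h2
      exact ⟨fun h => ⟨hD.1, h⟩, fun h => h.2⟩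
    · rintro q (hq | ⟨z, hz, hqz, _⟩)
      · exact (hτJ q hq).1
      · intro e
        exact hiJ (by rw [← e, hqz]; exact (hD.1.1 z hz).1)
    · have h3 := Set.ncard_union_le τ (uz {z | z ∈ l})
      have h4 := (uz_fin l).2
      omega
  · -- columns
    intro t ht2 htp hD
    have ht : S.NN τ i {h | h ∈ t} := by
      have h := hD.2
      rwa [uz_empty, Set.union_empty] at h
    exact (ex_congr (fun l => dd_col S f J τ i hiJ hJ t ht l) _).mpr (hcol t ht2 htp ht)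

end Pool.Agent.TWS.H15
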