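import Pool.Agent.Helper15_TWS.Sur

/-! THR: Theorem R, the rainbow handle complex in `ker f`. -/

set_option autoImplicit false

namespace Pool.Agent.TWS.H15

open Pool.Agent.TOR Pool.Agent.TOR.H58

section

variable {V E : Type} [AddCommGroup E] [Module ℚ E] {g : ℕ} (S : ASys V E g)

theorem indG_handle {τ : Set (ℕ × V)} {i : ℕ} {h : V × V} (hτ : S.IndG τ) (hh : S.IsH h)
    (hi : ∀ q ∈ τ, q.1 ≠ i) (hs : S.Sys (τ ∪ gp i {h.1, h.2})) :
    S.IndG (τ ∪ gp i {h.1, h.2}) :=
  indG_union S hτ (ind_handle S hh hi hs)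

theorem uz_gap {s : Set (ℕ × (V × V))} {q : ℕ × V} (hq : q ∈ uz s) : ∃ z ∈ s, q.1 = z.1 := by
  obtain ⟨z, hz, h, _⟩ := hq
  exact ⟨z, hz, h⟩

/-- the link of a handle `z` at the gap `N` -/
theorem link_iff {f : E →ₗ[ℚ] ℚ} {J : Finset ℕ} {N : ℕ} (hN : N ∈ J) {τ : Set (ℕ × V)}
    {z : ℕ × (V × V)} (hz : z.1 = N) (hK : S.HK f (J : Set ℕ) τ {z}) (s : Set (ℕ × (V × V))) :
    ((∀ a ∈ s, a.1 ≠ N) ∧ S.HK f (J : Set ℕ) τ (insert z s)) ↔
      S.HK f ((J.erase N : Finset ℕ) : Set ℕ) (τ ∪ gp N {z.2.1, z.2.2}) s := by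
  have e : τ ∪ uz (insert z s) = (τ ∪ gp N {z.2.1, z.2.2}) ∪ uz s := by
    rw [uz_insert, hz, Set.union_assoc]
  constructor
  · rintro ⟨h1, h2⟩
    refine ⟨fun w hw => ?_, fun w hw w' hw' => h2.2.1 w (Or.inr hw) w' (Or.inr hw'), ?_⟩
    · have h3 := h2.1 w (Or.inr hw)
      exact ⟨Finset.mem_coe.mpr (Finset.mem_erase.mpr ⟨h1 w hw, Finset.mem_coe.mp h3.1⟩), h3.2⟩
    · rw [← e]; exact h2.2.2
  · intro h
    have h1 : ∀ a ∈ s, a.1 ≠ N := fun a ha =>
      (Finset.mem_erase.mp (Finset.mem_coe.mp (h.1 a ha).1)).1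
    refine ⟨h1, ?_, ?_, ?_⟩
    · rintro w (rfl | hw)
      · exact hK.1 w rfl
      · exact ⟨Finset.mem_coe.mpr (Finset.mem_of_mem_erase (Finset.mem_coe.mp (h.1 w hw).1)),
          (h.1 w hw).2⟩
    · rintro w (rfl | hw) w' (rfl | hw') e'
      · rfl
      · exact absurd (e'.symm.trans hz) (h1 w' hw')
      · exact absurd (e'.trans hz) (h1 w hw)
      · exact h.2.1 w hw w' hw' e'
    · rw [e]; exact h.2.2

end

theorem thr (hA : AttS) (hS : SurS) : ThrS := by
  intro V E M _ _ _ g S f J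
  induction' hn : J.card using Nat.strong_induction_on with n ih generalizing J
  intro τ hJ2 hτf hτs hτi hτJ hg p hp
  have hne : J.Nonempty := Finset.card_pos.mp (by omega)
  obtain ⟨N, hN⟩ := hne
  set J0 : Finset ℕ := J.erase N with hJ0
  have hc0 : J0.card = n - 1 := by rw [hJ0, Finset.card_erase_of_mem hN, hn]
  have hn1 : 1 ≤ n := by omega
  have hN0 : ∀ j ∈ J0, j ≠ N ∧ j ∈ J := fun j hj => Finset.mem_erase.mp hj
  have hJ02 : ∀ j ∈ J0, j + 1 ∉ J0 := fun j hj h => hJ2 j (hN0 j hj).2 (hN0 _ h).2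
  have hNs : N + 1 ∉ J := hJ2 N hN
  -- the induction hypothesis for `J0`
  have IH : ∀ τ' : Set (ℕ × V), τ'.Finite → S.Sys τ' → S.IndG τ' →
      (∀ q ∈ τ', ∀ j ∈ J0, q.1 ≠ j ∧ q.1 ≠ j + 1) →
      2 * τ'.ncard + 6 * (n - 1) ^ 2 + 10 * (n - 1) ≤ g →
      ∀ p' < n - 1, Ex M (S.HK f (J0 : Set ℕ) τ') p' := by
    intro τ' h1 h2 h3 h4 h5 p' hp'
    exact ih (n - 1) (by omega) J0 hc0 τ' hJ02 h1 h2 h3 h4 h5 p' hp'
  -- gaps
  have hgN : ∀ j ∈ J0, N ≠ j ∧ N ≠ j + 1 := fun j hj =>
    ⟨fun e => (hN0 j hj).1 e.symm, fun e => hJ2 j (hN0 j hj).2 (e ▸ hN)⟩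
  have hgN1 : ∀ j ∈ J0, N + 1 ≠ j ∧ N + 1 ≠ j + 1 := fun j hj =>
    ⟨fun e => hNs (e ▸ (hN0 j hj).2), fun e => (hN0 j hj).1 (by omega)⟩
  have hτ0 : ∀ q ∈ τ, ∀ j ∈ J0, q.1 ≠ j ∧ q.1 ≠ j + 1 := fun q hq j hj =>
    hτJ q hq j (hN0 j hj).2
  have harith : 6 * (n - 1) ^ 2 + 10 * (n - 1) + 8 + 4 * n ≤ 6 * n ^ 2 + 10 * n := by
    obtain ⟨k, rfl⟩ : ∃ k, n = k + 1 := ⟨n - 1, by omega⟩
    simp only [Nat.add_sub_cancel]
    nlinarith
  -- ATT
  refine hA (ℕ × (V × V)) M (S.HK f (J : Set ℕ) τ) {z | z.1 = N} (n - 1) (hk_dn S f _ τ)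
    ?_ ?_ ?_ p (by omega)
  · intro s hs a ha b hb haP hbP
    exact hs.2.1 a ha b hb (haP.trans hbP.symm)
  · -- links
    intro h hhP hK p' hp'
    have hsys : S.Sys (τ ∪ gp N {h.2.1, h.2.2}) := by
      have h1 := hK.2.2
      rwa [← insert_empty_eq, uz_insert, uz_empty, Set.union_empty, hhP] at h1
    refine (ex_congr (fun l => link_iff S hN hhP hK {a | a ∈ l}) p').mpr ?_
    refine IH _ (hτf.union (pair_fin _ _ _)) hsys
      (indG_handle S hτi (hK.1 h rfl).2.1 (fun q hq => (hτJ q hq N hN).1) hsys) ?_ ?_ p' hp'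
    · rintro q (hq | hq) j hj
      · exact hτ0 q hq j hj
      · rw [(mem_gp.mp hq).1]; exact hgN j hj
    · have h3 := Set.ncard_union_le τ (gp N {h.2.1, h.2.2})
      have h4 := pair_card N h.2.1 h.2.2
      omega
  · -- cycles of `K_0`
    intro q hq
    have hK0 : Zc M (fun s => (∀ a ∈ s, a ∉ {z : ℕ × (V × V) | z.1 = N}) ∧
        S.HK f (J : Set ℕ) τ s) q ≤ Zc M (S.HK f (J0 : Set ℕ) τ) q := by
      refine zc_mono (fun l hl => ?_) q
      refine ⟨fun w hw => ?_, hl.2.2⟩
      have h3 := hl.2.1 w hw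
      exact ⟨Finset.mem_coe.mpr (Finset.mem_erase.mpr ⟨hl.1 w hw, Finset.mem_coe.mp h3.1⟩), h3.2⟩
    have hJJ : ∀ (s : Set (ℕ × (V × V))), S.HK f (J0 : Set ℕ) τ s → S.HK f (J : Set ℕ) τ s := by
      intro s hs
      exact ⟨fun w hw => ⟨Finset.mem_coe.mpr (hN0 _ (Finset.mem_coe.mp (hs.1 w hw).1)).2,
        (hs.1 w hw).2⟩, hs.2⟩
    refine hK0.trans ?_
    by_cases hq1 : q < n - 1
    · refine (IH τ hτf hτs hτi hτ0 (by omega) q hq1).trans ?_
      exact (bc_mono (fun l hl => hJJ _ hl) q).trans le_sup_left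
    · have hqn : q = n - 1 := by omega
      refine le_trans ?_ le_sup_right
      have hNJ0 : N ∉ (J0 : Set ℕ) := fun h => (hN0 N (Finset.mem_coe.mp h)).1 rfl
      have hN1J0 : N + 1 ∉ (J0 : Set ℕ) := fun h => hNs (hN0 _ (Finset.mem_coe.mp h)).2
      -- SUR at the gap `N`
      have s1 := hS V E M g S f (J0 : Set ℕ) τ N q hτf hτs hτi hNJ0
        (fun r hr => ⟨(hτJ r hr N hN).1, fun h => (hτ0 r hr _ (Finset.mem_coe.mp h)).1 rfl⟩)
        (by omega) ?_
      · refine s1.trans (iSup_le fun h => ?_)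
        obtain ⟨h, hh, hhs⟩ := h
        simp only
        have hi1 := indG_handle S hτi hh (fun r hr => (hτJ r hr N hN).1) hhs
        have hcard : (τ ∪ gp N {h.1, h.2}).ncard ≤ τ.ncard + 2 :=
          (Set.ncard_union_le _ _).trans (Nat.add_le_add_left (pair_card N h.1 h.2) _)
        -- SUR at the gap `N + 1`
        have s2 := hS V E M g S f (J0 : Set ℕ) (τ ∪ gp N {h.1, h.2}) (N + 1) q
          (hτf.union (pair_fin _ _ _)) hhs hi1 hN1J0 ?_ (by omega) ?_
        · refine s2.trans (iSup_le fun h' => ?_)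
          obtain ⟨h', hh', hhs'⟩ := h'
          simp only
          have hsub : gp N {h.1, h.2} ∪ gp (N + 1) {h'.1, h'.2} ⊆
              (τ ∪ gp N {h.1, h.2}) ∪ gp (N + 1) {h'.1, h'.2} :=
            Set.union_subset_union_left _ Set.subset_union_right
          obtain ⟨h2, hC, hom, hf1, hf2, hcomp⟩ := S.fat N h h' hh.2 hh'.2
            (fun a ha b hb => hhs' a (hsub ha) b (hsub hb)) f
          have hH2 : S.IsH h2 := ⟨S.same _ _ _ _ hC, hom⟩
          -- the vertex
          have hsysz : ∀ s : Set (ℕ × (V × V)), (∀ a ∈ s, a.1 ∈ J0) →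
              S.Sys (((τ ∪ gp N {h.1, h.2}) ∪ gp (N + 1) {h'.1, h'.2}) ∪ uz s) →
              S.Sys (τ ∪ uz (insert (N, h2) s)) := by
            intro s hs hsy
            have hr : ∀ r ∈ τ ∪ uz s, S.C r (N, h2.1) ∧ S.C r (N, h2.2) := by
              intro r hr
              refine hcomp r ?_ ?_ ?_
              · rcases hr with hr | hr
                · exact (hτJ r hr N hN).1
                · obtain ⟨z, hz, e⟩ := uz_gap hr
                  rw [e]; exact fun e' => (hN0 _ (hs z hz)).1 e'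
              · rcases hr with hr | hr
                · exact (hτJ r hr N hN).2
                · obtain ⟨z, hz, e⟩ := uz_gap hr
                  rw [e]; exact fun e' => hNs (e' ▸ (hN0 _ (hs z hz)).2)
              · intro a ha
                refine hsy r ?_ a (Or.inl (hsub ha))
                rcases hr with hr | hr
                · exact Or.inl (Or.inl (Or.inl hr))
                · exact Or.inr hr
            have hz2 : ∀ a ∈ gp N {h2.1, h2.2}, ∀ b ∈ gp N {h2.1, h2.2}, S.C a b := by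
              rintro ⟨a1, a2⟩ ha ⟨b1, b2⟩ hb
              obtain ⟨ha1, ha2⟩ := mem_gp.mp ha
              obtain ⟨hb1, hb2⟩ := mem_gp.mp hb
              simp only at ha1 hb1 ha2 hb2
              subst ha1 hb1
              rcases ha2 with rfl | ha2 <;> rcases hb2 with rfl | hb2
              · exact S.refl _
              · rw [Set.mem_singleton_iff.mp hb2]; exact hC
              · rw [Set.mem_singleton_iff.mp ha2]; exact S.symm _ _ hC
              · rw [Set.mem_singleton_iff.mp ha2, Set.mem_singleton_iff.mp hb2]; exact S.refl _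
            have hr2 : ∀ r ∈ τ ∪ uz s, ∀ a ∈ gp N {h2.1, h2.2}, S.C r a := by
              rintro r hr' ⟨a1, a2⟩ ha
              obtain ⟨ha1, ha2⟩ := mem_gp.mp ha
              simp only at ha1 ha2
              subst ha1
              rcases ha2 with rfl | ha2
              · exact (hr r hr').1
              · rw [Set.mem_singleton_iff.mp ha2]; exact (hr r hr').2
            have e : τ ∪ uz (insert (N, h2) s) = gp N {h2.1, h2.2} ∪ (τ ∪ uz s) := by
              rw [uz_insert, ← Set.union_assoc, ← Set.union_assoc, Set.union_comm τ]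
            rw [e]
            rintro a (ha | ha) b (hb | hb)
            · exact hz2 a ha b hb
            · exact S.symm _ _ (hr2 b hb a ha)
            · exact hr2 a ha b hb
            · refine hsy a ?_ b ?_
              · rcases ha with ha | ha
                · exact Or.inl (Or.inl (Or.inl ha))
                · exact Or.inr ha
              · rcases hb with hb | hb
                · exact Or.inl (Or.inl (Or.inl hb))
                · exact Or.inr hb
          have hKz : S.HK f (J : Set ℕ) τ {((N, h2) : ℕ × (V × V))} := by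
            refine ⟨?_, ?_, ?_⟩
            · intro z hz
              rw [Set.mem_singleton_iff.mp hz]
              exact ⟨Finset.mem_coe.mpr hN, hH2, hf1, hf2⟩
            · intro z hz z' hz' _
              rw [Set.mem_singleton_iff.mp hz, Set.mem_singleton_iff.mp hz']
            · have h5 := hsysz ∅ (fun a ha => absurd ha (Set.notMem_empty a))
                (by rw [uz_empty, Set.union_empty]; exact hhs')
              rwa [insert_empty_eq] at h5
          refine le_trans ?_ (le_iSup (fun z : {z : ℕ × (V × V) //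
            z ∈ {z : ℕ × (V × V) | z.1 = N} ∧ S.HK f (J : Set ℕ) τ {z}} =>
            Zc M (fun s => (∀ a ∈ s, a ∉ {z : ℕ × (V × V) | z.1 = N}) ∧
              S.HK f (J : Set ℕ) τ (insert z.1 s)) q) ⟨(N, h2), rfl, hKz⟩)
          refine zc_mono (fun l hl => ?_) q
          refine (link_iff S hN rfl hKz {a | a ∈ l}).mpr ⟨hl.1, hl.2.1, ?_⟩
          have h6 := hsysz {a | a ∈ l} (fun a ha => Finset.mem_coe.mp (hl.1 a ha).1) hl.2.2
          rwa [uz_insert, ← Set.union_assoc] at h6
        · rintro r (hr | hr)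
          · exact ⟨(hτJ r hr N hN).2, fun h => (hτ0 r hr _ (Finset.mem_coe.mp h)).1 rfl⟩
          · rw [(mem_gp.mp hr).1]
            exact ⟨by omega, hNJ0⟩
        · intro κ h2 hκ hNN
          have hf := gpuh_fin (N + 1) κ
          refine IH _ ((hτf.union (pair_fin _ _ _)).union hf.1) hNN.2.1
            (indG_union S hi1 hNN.2.2) ?_ ?_ _ (by omega)
          · rintro r ((hr | hr) | hr) j hj
            · exact hτ0 r hr j hj
            · rw [(mem_gp.mp hr).1]; exact hgN j hj
            · rw [(mem_gp.mp hr).1]; exact hgN1 j hj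
          · have h7 := Set.ncard_union_le (τ ∪ gp N {h.1, h.2}) (gp (N + 1) (uh {h | h ∈ κ}))
            have h8 := hf.2
            omega
      · intro κ h2 hκ hNN
        have hf := gpuh_fin N κ
        refine IH _ (hτf.union hf.1) hNN.2.1 (indG_union S hτi hNN.2.2) ?_ ?_ _ (by omega)
        · rintro r (hr | hr) j hj
          · exact hτ0 r hr j hj
          · rw [(mem_gp.mp hr).1]; exact hgN j hj
        · have h7 := Set.ncard_union_le τ (gp N (uh {h | h ∈ κ}))
          have h8 := hf.2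
          omega

end Pool.Agent.TWS.H15
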